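import Mathlib

set_option autoImplicit false

open Filter

namespace Pool.Agent.Helper1.LowComp

open Classical in
/-- The pattern of `B` in the window `[x, x + L)`. -/
noncomputable def pat (B : Set ℕ) (x L : ℕ) : Finset ℕ :=
  (Finset.range L).filter (fun i => x + i ∈ B)

/-- The occurrences of a pattern. -/
def Occ (B : Set ℕ) (h : ℕ) (W : Finset ℕ) : Set ℕ := {p | pat B p h = W}

open Classical in
/-- Counting function. -/
noncomputable def cnt (P : Set ℕ) (n : ℕ) : ℕ := Nat.count (fun m => m ∈ P) n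

lemma mem_pat {B : Set ℕ} {x L i : ℕ} : i ∈ pat B x L ↔ i < L ∧ x + i ∈ B := by
  classical
  simp [pat]

lemma pat_eq_iff {B : Set ℕ} {x y L : ℕ} :
    pat B x L = pat B y L ↔ ∀ i, i < L → (x + i ∈ B ↔ y + i ∈ B) := by
  constructor
  · intro h i hi
    have h1 : i ∈ pat B x L ↔ i ∈ pat B y L := by rw [h]
    simp only [mem_pat, hi, true_and] at h1
    exact h1
  · intro h
    ext i
    simp only [mem_pat]
    constructor
    · rintro ⟨hi, hx⟩
      exact ⟨hi, (h i hi).1 hx⟩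
    · rintro ⟨hi, hx⟩
      exact ⟨hi, (h i hi).2 hx⟩

lemma pat_sub {B : Set ℕ} {x y s n N : ℕ} (hs : s + n ≤ N) (h : pat B x N = pat B y N) :
    pat B (x + s) n = pat B (y + s) n := by
  rw [pat_eq_iff] at h ⊢
  intro i hi
  have := h (s + i) (by omega)
  rw [add_assoc, add_assoc]
  exact this

lemma occ_iff {B : Set ℕ} {h : ℕ} {W : Finset ℕ} {p p' i N : ℕ} (hi : i + h ≤ N)
    (hp : pat B p N = pat B p' N) : p + i ∈ Occ B h W ↔ p' + i ∈ Occ B h W := by
  simp only [Occ, Set.mem_ofPred_eq]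
  rw [pat_sub hi hp]

lemma cnt_add_card (P : Set ℕ) (p m : ℕ) : ∃ F : Finset ℕ,
    cnt P (p + m) = cnt P p + F.card ∧ ∀ k, k ∈ F ↔ k < m ∧ p + k ∈ P := by
  classical
  refine ⟨(Finset.range m).filter (fun k => p + k ∈ P), ?_, ?_⟩
  · unfold cnt
    rw [Nat.count_add, Nat.count_eq_card_filter_range (fun k => p + k ∈ P) m]
  · intro k
    simp

lemma cnt_shift {B : Set ℕ} {h : ℕ} {W : Finset ℕ} {p p' m N : ℕ} (hm : m + h ≤ N)
    (hp : pat B p N = pat B p' N) :
    cnt (Occ B h W) (p + m) + cnt (Occ B h W) p' = cnt (Occ B h W) (p' + m) + cnt (Occ B h W) p := by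
  obtain ⟨F, hF, hF'⟩ := cnt_add_card (Occ B h W) p m
  obtain ⟨F2, hF2, hF2'⟩ := cnt_add_card (Occ B h W) p' m
  have : F = F2 := by
    ext k
    rw [hF', hF2']
    constructor
    · rintro ⟨h1, h2⟩
      exact ⟨h1, (occ_iff (by omega) hp).1 h2⟩
    · rintro ⟨h1, h2⟩
      exact ⟨h1, (occ_iff (by omega) hp).2 h2⟩
  subst this
  omega

lemma cnt_mono (P : Set ℕ) {a b : ℕ} (h : a ≤ b) : cnt P a ≤ cnt P b := by
  classical
  exact Nat.count_monotone _ h

lemma cnt_lt {P : Set ℕ} {a b : ℕ} (ha : a ∈ P) (h : a < b) : cnt P a < cnt P b := by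
  classical
  exact Nat.count_strict_mono (p := fun m => m ∈ P) ha h

lemma cnt_inj {P : Set ℕ} {a b : ℕ} (ha : a ∈ P) (hb : b ∈ P) (h : cnt P a = cnt P b) : a = b := by
  classical
  exact Nat.count_injective (p := fun m => m ∈ P) ha hb h

lemma cnt_le_iff {P : Set ℕ} {a b : ℕ} (ha : a ∈ P) (h : cnt P b ≤ cnt P a) : b ≤ a := by
  by_contra hc
  push Not at hc
  exact absurd (cnt_lt ha hc) (by omega)

lemma cnt_le_self (P : Set ℕ) (n : ℕ) : cnt P n ≤ n := by
  classical
  exact Nat.count_le _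

lemma cnt_subset {P Q : Set ℕ} (h : P ⊆ Q) (n : ℕ) : cnt P n ≤ cnt Q n := by
  classical
  unfold cnt
  exact Nat.count_mono_left (fun _ _ hn => h hn)

lemma cnt_succ_le (P : Set ℕ) (n : ℕ) : cnt P (n + 1) ≤ cnt P n + 1 := by
  classical
  unfold cnt
  rw [Nat.count_succ]
  split_ifs <;> omega

lemma exists_rank {P : Set ℕ} : ∀ {x m : ℕ}, m < cnt P x → ∃ r, r < x ∧ r ∈ P ∧ cnt P r = m := by
  intro x
  induction x with
  | zero =>
    intro m hm
    simp [cnt] at hm
  | succ x ih =>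
    intro m hm
    by_cases h : m < cnt P x
    · obtain ⟨r, hr, h1, h2⟩ := ih h
      exact ⟨r, by omega, h1, h2⟩
    · have hx : x ∈ P := by
        by_contra hx
        classical
        unfold cnt at hm h
        rw [Nat.count_succ] at hm
        simp only [hx, if_false] at hm
        omega
      refine ⟨x, by omega, hx, ?_⟩
      have := cnt_succ_le P x
      omega

/-- if `P' ⊆ P`, counts between two points are smaller -/
lemma cnt_diff_subset {P' P : Set ℕ} (h : P' ⊆ P) {a b : ℕ} (hab : a ≤ b) :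
    cnt P' b + cnt P a ≤ cnt P b + cnt P' a := by
  obtain ⟨m, rfl⟩ := Nat.exists_eq_add_of_le hab
  obtain ⟨F, hF, hF'⟩ := cnt_add_card P' a m
  obtain ⟨F2, hF2, hF2'⟩ := cnt_add_card P a m
  have : F ⊆ F2 := by
    intro k hk
    rw [hF'] at hk
    rw [hF2']
    exact ⟨hk.1, h hk.2⟩
  have := Finset.card_le_card this
  omega

/-- cardinality of the finset of patterns of length `L` -/
lemma finite_pats (B : Set ℕ) (L : ℕ) : (Set.range (fun x => pat B x L)).Finite := by
  apply Set.Finite.subset (Finset.finite_toSet ((Finset.range L).powerset))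
  rintro _ ⟨x, rfl⟩
  simp only [Finset.coe_powerset, Set.mem_preimage, Set.mem_powerset_iff, Finset.coe_subset]
  intro i hi
  rw [mem_pat] at hi
  exact Finset.mem_range.2 hi.1

/-- factor complexity, with finset patterns -/
noncomputable def cplx (B : Set ℕ) (L : ℕ) : ℕ := (Set.range (fun x => pat B x L)).ncard

lemma cplx_mono (B : Set ℕ) {L L' : ℕ} (h : L ≤ L') : cplx B L ≤ cplx B L' := by
  classical
  have : Set.range (fun x => pat B x L) =
      (fun Z : Finset ℕ => Z.filter (· < L)) '' (Set.range (fun x => pat B x L')) := by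
    ext Z
    constructor
    · rintro ⟨x, rfl⟩
      refine ⟨pat B x L', ⟨x, rfl⟩, ?_⟩
      ext i
      simp only [Finset.mem_filter, mem_pat]
      constructor
      · rintro ⟨⟨h1, h2⟩, h3⟩
        exact ⟨h3, h2⟩
      · rintro ⟨h1, h2⟩
        exact ⟨⟨by omega, h2⟩, h1⟩
    · rintro ⟨_, ⟨x, rfl⟩, rfl⟩
      refine ⟨x, ?_⟩
      ext i
      simp only [Finset.mem_filter, mem_pat]
      constructor
      · rintro ⟨h1, h2⟩
        exact ⟨⟨by omega, h2⟩, h1⟩
      · rintro ⟨⟨h1, h2⟩, h3⟩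
        exact ⟨h3, h2⟩
  unfold cplx
  rw [this]
  exact Set.ncard_image_le (finite_pats B L')

/-- The key counting lemma for return patterns. -/
lemma card_return_patterns (B : Set ℕ) (h : ℕ) (W : Finset ℕ) (R M : ℕ)
    (U : Finset (ℕ × Finset ℕ))
    (hU : ∀ u ∈ U, M ≤ u.1 ∧ u.1 < 2 * M ∧ ∃ p, M ≤ p ∧ p ∈ Occ B h W ∧ p + u.1 ∈ Occ B h W ∧
      cnt (Occ B h W) (p + u.1) = cnt (Occ B h W) p + R ∧ pat B p (u.1 + h) = u.2) :
    U.card * M ≤ R * cplx B (3 * M + h) := by
  classical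
  set P := Occ B h W with hP
  choose! f hf using fun u hu => (hU u hu).2.2
  set T : Finset (Finset ℕ) := (finite_pats B (3 * M + h)).toFinset with hT
  have hTc : T.card = cplx B (3 * M + h) := by
    rw [hT, cplx, Set.ncard_eq_toFinset_card _ (finite_pats B (3 * M + h))]
  have hmain : (U ×ˢ Finset.range M).card ≤ R * T.card := by
    apply Finset.card_le_mul_card_image_of_maps_to
      (f := fun v : (ℕ × Finset ℕ) × ℕ => pat B (f v.1 - v.2) (3 * M + h))
    · intro v _
      simp [hT]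
    · intro Z _
      rcases Finset.eq_empty_or_nonempty
        ({v ∈ U ×ˢ Finset.range M | pat B (f v.1 - v.2) (3 * M + h) = Z}) with he | ⟨v0, hv0⟩
      · rw [he]; simp
      · set x0 := f v0.1 - v0.2 with hx0
        have hZ : pat B x0 (3 * M + h) = Z := by
          simp only [Finset.mem_filter] at hv0
          exact hv0.2
        -- facts for each element of the fiber
        have key : ∀ v ∈ ({v ∈ U ×ˢ Finset.range M | pat B (f v.1 - v.2) (3 * M + h) = Z}),
            v.2 < M ∧ M ≤ v.1.1 ∧ v.1.1 < 2 * M ∧ x0 + v.2 ∈ P ∧ x0 + v.2 + v.1.1 ∈ P ∧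
            cnt P (x0 + v.2 + v.1.1) = cnt P (x0 + v.2) + R ∧
            pat B (x0 + v.2) (v.1.1 + h) = v.1.2 := by
          intro v hv
          simp only [Finset.mem_filter, Finset.mem_product, Finset.mem_range] at hv
          obtain ⟨⟨hvU, hvM⟩, hvZ⟩ := hv
          obtain ⟨h1, h2, _⟩ := hU v.1 hvU
          obtain ⟨h3, h4, h5, h6, h7⟩ := hf v.1 hvU
          have hpe : pat B (f v.1 - v.2) (3 * M + h) = pat B x0 (3 * M + h) := by rw [hvZ, hZ]
          have e1 : f v.1 - v.2 + v.2 = f v.1 := by omega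
          have g1 : x0 + v.2 ∈ P := by
            rw [hP, ← occ_iff (N := 3 * M + h) (by omega) hpe, e1]; exact h4
          have g2 : x0 + v.2 + v.1.1 ∈ P := by
            rw [hP, add_assoc, ← occ_iff (N := 3 * M + h) (by omega) hpe, ← add_assoc, e1]; exact h5
          have hpe2 : pat B (f v.1) (v.1.1 + h) = pat B (x0 + v.2) (v.1.1 + h) := by
            have := pat_sub (s := v.2) (n := v.1.1 + h) (by omega) hpe
            rw [e1] at this
            exact this
          have g3 := cnt_shift (h := h) (W := W) (m := v.1.1) (N := v.1.1 + h) (by omega) hpe2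
          refine ⟨hvM, h1, h2, g1, g2, ?_, ?_⟩
          · rw [← hP] at g3
            omega
          · rw [← hpe2]; exact h7
        set c := cnt P (x0 + M) with hc
        have hle : ({v ∈ U ×ˢ Finset.range M | pat B (f v.1 - v.2) (3 * M + h) = Z}).card ≤
            (Finset.Ico (c - R) c).card := by
          apply Finset.card_le_card_of_injOn (fun v => cnt P (x0 + v.2))
          · intro v hv
            have hk := key v (by simpa using hv)
            obtain ⟨k1, k2, k3, k4, k5, k6, k7⟩ := hk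
            have l1 : cnt P (x0 + v.2) < c := cnt_lt k4 (by omega)
            have l2 : c ≤ cnt P (x0 + v.2 + v.1.1) := cnt_mono P (by omega)
            simp only [Finset.coe_Ico, Set.mem_Ico]
            omega
          · intro v hv w hw hvw
            have hkv := key v (by simpa using hv)
            have hkw := key w (by simpa using hw)
            obtain ⟨k1, k2, k3, k4, k5, k6, k7⟩ := hkv
            obtain ⟨m1, m2, m3, m4, m5, m6, m7⟩ := hkw
            simp only at hvw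
            have e1 : x0 + v.2 = x0 + w.2 := cnt_inj k4 m4 hvw
            have e2 : v.2 = w.2 := by omega
            have e3 : x0 + v.2 + v.1.1 = x0 + w.2 + w.1.1 := by
              apply cnt_inj k5 m5
              rw [k6, m6, e1]
            have e4 : v.1.1 = w.1.1 := by omega
            have e5 : v.1.2 = w.1.2 := by
              rw [← k7, ← m7, e1, e4]
            exact Prod.ext (Prod.ext e4 e5) e2
        calc _ ≤ _ := hle
          _ ≤ R := by simp; omega
  rw [Finset.card_product, Finset.card_range, hTc] at hmain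
  exact hmain

/-- Separation of the occurrences set. -/
def Sep (P : Set ℕ) (h k C G : ℕ) : Prop :=
  ∀ p l, p ∈ P → p + l ∈ P → cnt P p + k ≤ cnt P (p + l) → h ≤ C * l ∧ G < l

/-- Hilbert cubes with super-increasing generators. -/
def HasCube : ℕ → ℕ → Set ℕ → Prop
  | 0, _, Q => Q.Nonempty
  | d + 1, G, Q => ∃ g, G < g ∧ HasCube d (G + g) {q | q ∈ Q ∧ q + g ∈ Q}

lemma HasCube.mono' {d : ℕ} : ∀ {G : ℕ} {Q Q' : Set ℕ}, Q ⊆ Q' → HasCube d G Q → HasCube d G Q' := by
  induction d with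
  | zero => intro G Q Q' h hQ; exact Set.Nonempty.mono h hQ
  | succ d ih =>
    intro G Q Q' h hQ
    obtain ⟨g, hg, hc⟩ := hQ
    exact ⟨g, hg, ih (fun q hq => ⟨h hq.1, h hq.2⟩) hc⟩

lemma HasCube.exists_finset {d : ℕ} : ∀ {G : ℕ} {Q : Set ℕ}, HasCube d G Q →
    ∃ (q S : ℕ) (F : Finset ℕ), F.card = 2 ^ d ∧ (∀ f ∈ F, q + f ∈ Q) ∧
      (∀ f ∈ F, f ≤ S ∧ S - f ∈ F) ∧ (∀ f ∈ F, ∀ f' ∈ F, f < f' → f + G < f') := by
  classical
  induction d with
  | zero =>
    intro G Q h
    obtain ⟨q, hq⟩ := h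
    refine ⟨q, 0, {0}, by simp, ?_, ?_, ?_⟩ <;> simp [hq]
  | succ d ih =>
    intro G Q h
    obtain ⟨g, hg, hc⟩ := h
    obtain ⟨q, S, F, h1, h2, h3, h4⟩ := ih hc
    have hdisj : Disjoint F (F.image (· + g)) := by
      rw [Finset.disjoint_left]
      intro f hf hf'
      rw [Finset.mem_image] at hf'
      obtain ⟨f', hf', rfl⟩ := hf'
      have := h4 f' hf' (f' + g) hf (by omega)
      omega
    refine ⟨q, S + g, F ∪ F.image (· + g), ?_, ?_, ?_, ?_⟩
    · rw [Finset.card_union_of_disjoint hdisj, Finset.card_image_of_injective _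
        (add_left_injective g), h1]
      ring
    · intro f hf
      rw [Finset.mem_union, Finset.mem_image] at hf
      rcases hf with hf | ⟨f, hf, rfl⟩
      · exact (h2 f hf).1
      · rw [← add_assoc]; exact (h2 f hf).2
    · intro f hf
      rw [Finset.mem_union, Finset.mem_image] at hf
      rcases hf with hf | ⟨f, hf, rfl⟩
      · obtain ⟨a1, a2⟩ := h3 f hf
        refine ⟨by omega, ?_⟩
        rw [Finset.mem_union, Finset.mem_image]
        right
        exact ⟨S - f, a2, by omega⟩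
      · obtain ⟨a1, a2⟩ := h3 f hf
        refine ⟨by omega, ?_⟩
        rw [Finset.mem_union]
        left
        have : S + g - (f + g) = S - f := by omega
        rw [this]; exact a2
    · intro f hf f' hf' hlt
      rw [Finset.mem_union, Finset.mem_image] at hf hf'
      rcases hf with hf | ⟨f, hf, rfl⟩ <;> rcases hf' with hf' | ⟨f', hf', rfl⟩
      · have := h4 f hf f' hf' hlt; omega
      · rcases lt_trichotomy f f' with hh | hh | hh
        · have := h4 f hf f' hf' hh; omega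
        · omega
        · have := h4 f' hf' f hf hh
          omega
      · rcases lt_trichotomy f f' with hh | hh | hh
        · have := h4 f hf f' hf' hh
          omega
        · omega
        · have := h4 f' hf' f hf hh
          omega
      · have := h4 f hf f' hf' (by omega); omega

/-- Total number of return patterns of length at most `y`. -/
lemma card_patterns_le (B : Set ℕ) (h : ℕ) (W : Finset ℕ) (R C y : ℕ) (D δ : ℝ) (hD : 0 ≤ D)
    (hδ : 0 ≤ δ) (hcp : ∀ n : ℕ, 1 ≤ n → (cplx B n : ℝ) ≤ D * (n : ℝ) ^ (1 + δ))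
    (U : Finset (ℕ × Finset ℕ))
    (hU : ∀ u ∈ U, 1 ≤ u.1 ∧ u.1 ≤ y ∧ h ≤ C * u.1 ∧ ∃ p, u.1 ≤ p ∧ p ∈ Occ B h W ∧
      p + u.1 ∈ Occ B h W ∧
      cnt (Occ B h W) (p + u.1) = cnt (Occ B h W) p + R ∧ pat B p (u.1 + h) = u.2) :
    (U.card : ℝ) ≤ ((Nat.log 2 y : ℝ) + 1) * (R * D * (3 + 2 * C : ℝ) ^ (1 + δ) * (y : ℝ) ^ δ) := by
  classical
  have hmaps : Set.MapsTo (fun u : ℕ × Finset ℕ => Nat.log 2 u.1) (U : Set (ℕ × Finset ℕ))
      (Finset.range (Nat.log 2 y + 1) : Set ℕ) := by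
    intro u hu
    obtain ⟨h1, h2, _⟩ := hU u (by simpa using hu)
    simp only [Finset.coe_range, Set.mem_Iio]
    have := Nat.log_mono_right (b := 2) h2
    omega
  rw [Finset.card_eq_sum_card_fiberwise hmaps]
  push_cast
  have hbound : ∀ m ∈ Finset.range (Nat.log 2 y + 1),
      (({u ∈ U | Nat.log 2 u.1 = m}).card : ℝ) ≤
        R * D * (3 + 2 * C : ℝ) ^ (1 + δ) * (y : ℝ) ^ δ := by
    intro m hm
    rcases Finset.eq_empty_or_nonempty ({u ∈ U | Nat.log 2 u.1 = m}) with he | ⟨u0, hu0⟩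
    · rw [he]
      simp only [Finset.card_empty, Nat.cast_zero]
      positivity
    · have hlog : ∀ u ∈ ({u ∈ U | Nat.log 2 u.1 = m}), 2 ^ m ≤ u.1 ∧ u.1 < 2 * 2 ^ m := by
        intro u hu
        simp only [Finset.mem_filter] at hu
        obtain ⟨h1, _⟩ := hU u hu.1
        refine ⟨?_, ?_⟩
        · rw [← hu.2]; exact Nat.pow_log_le_self 2 (by omega)
        · have := Nat.lt_pow_succ_log_self (b := 2) (by norm_num) u.1
          rw [hu.2, pow_succ] at this
          omega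
      have hcard := card_return_patterns B h W R (2 ^ m) ({u ∈ U | Nat.log 2 u.1 = m}) (by
        intro u hu
        obtain ⟨l1, l2⟩ := hlog u hu
        simp only [Finset.mem_filter] at hu
        obtain ⟨h1, h2, h3, p, h4, h5, h6, h7, h8⟩ := hU u hu.1
        exact ⟨l1, l2, p, by omega, h5, h6, h7, h8⟩)
      have hu0' : u0 ∈ U := (Finset.mem_filter.1 hu0).1
      obtain ⟨h1, h2, h3, -⟩ := hU u0 hu0'
      obtain ⟨l1, l2⟩ := hlog u0 hu0
      have hlen : 3 * 2 ^ m + h ≤ (3 + 2 * C) * 2 ^ m := by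
        have : C * u0.1 ≤ C * (2 * 2 ^ m) := Nat.mul_le_mul_left C l2.le
        nlinarith
      have hc1 : cplx B (3 * 2 ^ m + h) ≤ cplx B ((3 + 2 * C) * 2 ^ m) := cplx_mono B hlen
      have hpos : 1 ≤ (3 + 2 * C) * 2 ^ m := by
        have : 1 ≤ 2 ^ m := Nat.one_le_two_pow
        nlinarith
      have hc2 := hcp ((3 + 2 * C) * 2 ^ m) hpos
      have hm2 : (2 : ℝ) ^ m ≤ y := by
        have : 2 ^ m ≤ y := l1.trans h2
        exact_mod_cast this
      have e1 : (((3 + 2 * C) * 2 ^ m : ℕ) : ℝ) ^ (1 + δ) =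
          (3 + 2 * C : ℝ) ^ (1 + δ) * ((2 : ℝ) ^ m * ((2 : ℝ) ^ m) ^ δ) := by
        push_cast
        rw [Real.mul_rpow (by positivity) (by positivity)]
        congr 1
        rw [Real.rpow_add (by positivity), Real.rpow_one]
      have e2 : ((2 : ℝ) ^ m) ^ δ ≤ (y : ℝ) ^ δ := Real.rpow_le_rpow (by positivity) hm2 hδ
      have e3 : ((({u ∈ U | Nat.log 2 u.1 = m}).card : ℝ)) * (2 : ℝ) ^ m ≤
          (R * D * (3 + 2 * C : ℝ) ^ (1 + δ) * ((2 : ℝ) ^ m) ^ δ) * (2 : ℝ) ^ m := by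
        have : ((({u ∈ U | Nat.log 2 u.1 = m}).card : ℝ)) * (2 : ℝ) ^ m ≤
            R * (cplx B (3 * 2 ^ m + h) : ℝ) := by exact_mod_cast hcard
        have h' : (cplx B (3 * 2 ^ m + h) : ℝ) ≤ cplx B ((3 + 2 * C) * 2 ^ m) := by
          exact_mod_cast hc1
        have hR0 : (0 : ℝ) ≤ R := by positivity
        calc _ ≤ _ := this
          _ ≤ R * (D * (((3 + 2 * C) * 2 ^ m : ℕ) : ℝ) ^ (1 + δ)) := by
            apply mul_le_mul_of_nonneg_left _ hR0
            exact h'.trans hc2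
          _ = _ := by rw [e1]; ring
      have e4 := le_of_mul_le_mul_right e3 (by positivity)
      calc _ ≤ _ := e4
        _ ≤ _ := by
          apply mul_le_mul_of_nonneg_left e2
          positivity
  calc _ ≤ ∑ m ∈ Finset.range (Nat.log 2 y + 1), R * D * (3 + 2 * C : ℝ) ^ (1 + δ) * (y : ℝ) ^ δ :=
        Finset.sum_le_sum hbound
    _ = _ := by
      rw [Finset.sum_const, Finset.card_range, nsmul_eq_mul]
      push_cast
      ring

/-- The bad points are few. -/
lemma good_count (P Q : Set ℕ) (hQP : Q ⊆ P) (h k C G R y x : ℕ) (hk : 1 ≤ k) (hkR : k ≤ R)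
    (hsep : Sep P h k C G) (𝒢 : Finset ℕ)
    (h𝒢 : ∀ q, q ∈ 𝒢 ↔ (q < x ∧ q ∈ Q ∧ ∃ l g, q + l ∈ P ∧ q + l < x ∧
      cnt P (q + l) = cnt P q + R ∧ l ≤ q ∧ l ≤ y ∧ q + g ∈ Q ∧ G < g ∧ g ≤ l)) :
    cnt Q x ≤ 𝒢.card + ((cnt P x / (R + 1) + 1) * k + R + (Nat.log 2 x + 1) * R +
      (x / (y + 1) + 1) * R) := by
  classical
  set S : Finset ℕ := (Finset.range x).filter (fun q => q ∈ Q) with hS
  have hScard : S.card = cnt Q x := by
    unfold cnt
    rw [Nat.count_eq_card_filter_range]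
  have hSmem : ∀ q, q ∈ S ↔ q < x ∧ q ∈ Q := by intro q; simp [hS]
  set Z1 := S.filter (fun q => ∀ q' ∈ Q, q' < x → ¬ (cnt P q + k ≤ cnt P q' ∧
    cnt P q' ≤ cnt P q + R)) with hZ1
  set Z2 := S.filter (fun q => cnt P x ≤ cnt P q + R) with hZ2
  set Z3 := S.filter (fun q => ∃ l, q + l ∈ P ∧ cnt P (q + l) = cnt P q + R ∧ q < l) with hZ3
  set Z4 := S.filter (fun q => ∃ l, q + l ∈ P ∧ cnt P (q + l) = cnt P q + R ∧ q + l < x ∧ y < l)
    with hZ4
  have hcover : S ⊆ 𝒢 ∪ (Z1 ∪ Z2 ∪ Z3 ∪ Z4) := by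
    intro q hq
    by_contra hcon
    simp only [Finset.mem_union, not_or] at hcon
    obtain ⟨hG, ⟨⟨h1, h2⟩, h3⟩, h4⟩ := hcon
    obtain ⟨hqx, hqQ⟩ := (hSmem q).1 hq
    simp only [hZ2, Finset.mem_filter, hq, true_and, not_le] at h2
    obtain ⟨r, hrx, hrP, hrc⟩ := exists_rank h2
    have hqr : q < r := by
      by_contra hc
      push Not at hc
      have := cnt_mono P hc
      omega
    obtain ⟨l, rfl⟩ := Nat.exists_eq_add_of_le hqr.le
    have hl1 : l ≤ q := by
      by_contra hc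
      push Not at hc
      apply h3
      simp only [hZ3, Finset.mem_filter, hq, true_and]
      exact ⟨l, hrP, hrc, hc⟩
    have hl2 : l ≤ y := by
      by_contra hc
      push Not at hc
      apply h4
      simp only [hZ4, Finset.mem_filter, hq, true_and]
      exact ⟨l, hrP, hrc, hrx, hc⟩
    simp only [hZ1, Finset.mem_filter, hq, true_and] at h1
    push Not at h1
    obtain ⟨q', hq'Q, hq'x, hq'1, hq'2⟩ := h1
    have hqq' : q < q' := by
      by_contra hc
      push Not at hc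
      have := cnt_mono P hc
      omega
    obtain ⟨g, rfl⟩ := Nat.exists_eq_add_of_le hqq'.le
    apply hG
    rw [h𝒢]
    refine ⟨hqx, hqQ, l, g, hrP, hrx, hrc, hl1, hl2, hq'Q, ?_, ?_⟩
    · exact (hsep q g (hQP hqQ) (hQP hq'Q) hq'1).2
    · have : q + g ≤ q + l := cnt_le_iff hrP (by rw [hrc]; exact hq'2)
      omega
  have modlem : ∀ a b m : ℕ, 1 ≤ m → a % m = b % m → a < b → a + m ≤ b := by
    intro a b m hm he hlt
    have hd : m ∣ b - a := (Nat.modEq_iff_dvd' hlt.le).1 he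
    have := Nat.le_of_dvd (by omega) hd
    omega
  have hc1 : Z1.card ≤ (cnt P x / (R + 1) + 1) * k := by
    have : (Finset.range (cnt P x / (R + 1) + 1) ×ˢ Finset.range k).card =
        (cnt P x / (R + 1) + 1) * k := by simp
    rw [← this]
    apply Finset.card_le_card_of_injOn (fun q => (cnt P q / (R + 1), cnt P q % k))
    · intro q hq
      have hq' : q ∈ Z1 := by simpa using hq
      simp only [hZ1, Finset.mem_filter] at hq'
      have hqx := ((hSmem q).1 hq'.1).1
      simp only [Finset.coe_product, Finset.coe_range, Set.mem_prod, Set.mem_Iio]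
      refine ⟨?_, Nat.mod_lt _ (by omega)⟩
      have := Nat.div_le_div_right (c := R + 1) (cnt_mono P hqx.le)
      omega
    · have aux : ∀ q ∈ Z1, ∀ q' ∈ Z1, cnt P q / (R + 1) = cnt P q' / (R + 1) →
          cnt P q % k = cnt P q' % k → ¬ cnt P q < cnt P q' := by
        intro q hq q' hq' e1 e2 hlt
        simp only [hZ1, Finset.mem_filter] at hq hq'
        obtain ⟨hq'x, hq'Q⟩ := (hSmem q').1 hq'.1
        apply hq.2 q' hq'Q hq'x
        refine ⟨modlem _ _ _ hk e2 hlt, ?_⟩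
        have d1 := Nat.div_add_mod (cnt P q) (R + 1)
        have d2 := Nat.div_add_mod (cnt P q') (R + 1)
        have d3 := Nat.mod_lt (cnt P q') (Nat.succ_pos R)
        rw [← e1] at d2
        have d3' : cnt P q' % (R + 1) < R + 1 := d3
        omega
      intro q hq q' hq' he
      have hq1 : q ∈ Z1 := by simpa using hq
      have hq1' : q' ∈ Z1 := by simpa using hq'
      simp only [Prod.mk.injEq] at he
      have hqP : q ∈ P := by
        simp only [hZ1, Finset.mem_filter] at hq1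
        exact hQP ((hSmem q).1 hq1.1).2
      have hqP' : q' ∈ P := by
        simp only [hZ1, Finset.mem_filter] at hq1'
        exact hQP ((hSmem q').1 hq1'.1).2
      rcases lt_trichotomy (cnt P q) (cnt P q') with hh | hh | hh
      · exact absurd hh (aux q hq1 q' hq1' he.1 he.2)
      · exact cnt_inj hqP hqP' hh
      · exact absurd hh (aux q' hq1' q hq1 he.1.symm he.2.symm)
  have hc2 : Z2.card ≤ R := by
    have : (Finset.Ico (cnt P x - R) (cnt P x)).card ≤ R := by simp; omega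
    refine le_trans ?_ this
    apply Finset.card_le_card_of_injOn (fun q => cnt P q)
    · intro q hq
      have hq' : q ∈ Z2 := by simpa using hq
      simp only [hZ2, Finset.mem_filter] at hq'
      obtain ⟨hqx, hqQ⟩ := (hSmem q).1 hq'.1
      have := cnt_lt (hQP hqQ) hqx
      simp only [Finset.coe_Ico, Set.mem_Ico]
      omega
    · intro q hq q' hq' he
      have hq1 : q ∈ Z2 := by simpa using hq
      have hq1' : q' ∈ Z2 := by simpa using hq'
      simp only [hZ2, Finset.mem_filter] at hq1 hq1'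
      exact cnt_inj (hQP ((hSmem q).1 hq1.1).2) (hQP ((hSmem q').1 hq1'.1).2) he
  have hc3 : Z3.card ≤ (Nat.log 2 x + 1) * R := by
    have : (Finset.range (Nat.log 2 x + 1) ×ˢ Finset.range R).card =
        (Nat.log 2 x + 1) * R := by simp
    rw [← this]
    apply Finset.card_le_card_of_injOn (fun q => (Nat.log 2 (q + 1), cnt P q % R))
    · intro q hq
      have hq' : q ∈ Z3 := by simpa using hq
      simp only [hZ3, Finset.mem_filter] at hq'
      have hqx := ((hSmem q).1 hq'.1).1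
      simp only [Finset.coe_product, Finset.coe_range, Set.mem_prod, Set.mem_Iio]
      refine ⟨?_, Nat.mod_lt _ (by omega)⟩
      have := Nat.log_mono_right (b := 2) (show q + 1 ≤ x by omega)
      omega
    · have aux : ∀ q ∈ Z3, ∀ q' ∈ Z3, Nat.log 2 (q + 1) = Nat.log 2 (q' + 1) →
          cnt P q % R = cnt P q' % R → ¬ cnt P q < cnt P q' := by
        intro q hq q' hq' e1 e2 hlt
        simp only [hZ3, Finset.mem_filter] at hq hq'
        obtain ⟨hqS, l, hl1, hl2, hl3⟩ := hq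
        have hq'P : q' ∈ P := hQP ((hSmem q').1 hq'.1).2
        have h5 := modlem _ _ _ (by omega) e2 hlt
        have h6 : q + l ≤ q' := cnt_le_iff hq'P (by rw [hl2]; exact h5)
        have h7 : 2 * (q + 1) ≤ q' + 1 := by omega
        have h8 := Nat.log_mono_right (b := 2) h7
        rw [mul_comm, Nat.log_mul_base (by norm_num) (by omega)] at h8
        omega
      intro q hq q' hq' he
      have hq1 : q ∈ Z3 := by simpa using hq
      have hq1' : q' ∈ Z3 := by simpa using hq'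
      simp only [Prod.mk.injEq] at he
      have hqP : q ∈ P := by
        simp only [hZ3, Finset.mem_filter] at hq1
        exact hQP ((hSmem q).1 hq1.1).2
      have hqP' : q' ∈ P := by
        simp only [hZ3, Finset.mem_filter] at hq1'
        exact hQP ((hSmem q').1 hq1'.1).2
      rcases lt_trichotomy (cnt P q) (cnt P q') with hh | hh | hh
      · exact absurd hh (aux q hq1 q' hq1' he.1 he.2)
      · exact cnt_inj hqP hqP' hh
      · exact absurd hh (aux q' hq1' q hq1 he.1.symm he.2.symm)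
  have hc4 : Z4.card ≤ (x / (y + 1) + 1) * R := by
    have : (Finset.range (x / (y + 1) + 1) ×ˢ Finset.range R).card =
        (x / (y + 1) + 1) * R := by simp
    rw [← this]
    apply Finset.card_le_card_of_injOn (fun q => (q / (y + 1), cnt P q % R))
    · intro q hq
      have hq' : q ∈ Z4 := by simpa using hq
      simp only [hZ4, Finset.mem_filter] at hq'
      have hqx := ((hSmem q).1 hq'.1).1
      simp only [Finset.coe_product, Finset.coe_range, Set.mem_prod, Set.mem_Iio]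
      refine ⟨?_, Nat.mod_lt _ (by omega)⟩
      have := Nat.div_le_div_right (c := y + 1) hqx.le
      omega
    · have aux : ∀ q ∈ Z4, ∀ q' ∈ Z4, q / (y + 1) = q' / (y + 1) →
          cnt P q % R = cnt P q' % R → ¬ cnt P q < cnt P q' := by
        intro q hq q' hq' e1 e2 hlt
        simp only [hZ4, Finset.mem_filter] at hq hq'
        obtain ⟨hqS, l, hl1, hl2, hl3, hl4⟩ := hq
        have hq'P : q' ∈ P := hQP ((hSmem q').1 hq'.1).2
        have h5 := modlem _ _ _ (by omega) e2 hlt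
        have h6 : q + l ≤ q' := cnt_le_iff hq'P (by rw [hl2]; exact h5)
        have h7 : q + (y + 1) ≤ q' := by omega
        have h8 := Nat.div_le_div_right (c := y + 1) h7
        rw [Nat.add_div_right _ (show 0 < y + 1 by omega)] at h8
        omega
      intro q hq q' hq' he
      have hq1 : q ∈ Z4 := by simpa using hq
      have hq1' : q' ∈ Z4 := by simpa using hq'
      simp only [Prod.mk.injEq] at he
      have hqP : q ∈ P := by
        simp only [hZ4, Finset.mem_filter] at hq1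
        exact hQP ((hSmem q).1 hq1.1).2
      have hqP' : q' ∈ P := by
        simp only [hZ4, Finset.mem_filter] at hq1'
        exact hQP ((hSmem q').1 hq1'.1).2
      rcases lt_trichotomy (cnt P q) (cnt P q') with hh | hh | hh
      · exact absurd hh (aux q hq1 q' hq1' he.1 he.2)
      · exact cnt_inj hqP hqP' hh
      · exact absurd hh (aux q' hq1' q hq1 he.1.symm he.2.symm)
  have hle := Finset.card_le_card hcover
  have hu1 := Finset.card_union_le 𝒢 (Z1 ∪ Z2 ∪ Z3 ∪ Z4)
  have hu2 := Finset.card_union_le (Z1 ∪ Z2 ∪ Z3) Z4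
  have hu3 := Finset.card_union_le (Z1 ∪ Z2) Z3
  have hu4 := Finset.card_union_le Z1 Z2
  rw [hScard] at hle
  omega

/-- A weighted pigeonhole principle. -/
lemma pigeon {ι : Type} (U : Finset ι) (t n : ι → ℕ) (G N : ℕ) (c : ℝ) (hc : 0 < c)
    (hU : U.Nonempty) (hsumt : ∑ v ∈ U, t v = G) (hsumn : ∑ v ∈ U, n v ≤ N)
    (hG : c / 2 * N ≤ G) :
    ∃ v ∈ U, c / 4 * n v ≤ t v ∧ c / 4 * N ≤ t v * U.card := by
  have hUpos : (0 : ℝ) < U.card := by exact_mod_cast Finset.card_pos.2 hU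
  by_contra hcon
  push Not at hcon
  have hlt : ∑ v ∈ U, (t v : ℝ) < ∑ v ∈ U, (c / 4 * n v + c / 4 * N / U.card) := by
    apply Finset.sum_lt_sum_of_nonempty hU
    intro v hv
    by_cases h1 : c / 4 * n v ≤ t v
    · have h2 := hcon v hv h1
      have h3 : (t v : ℝ) < c / 4 * N / U.card := by
        rw [lt_div_iff₀ hUpos]; exact h2
      have h4 : (0 : ℝ) ≤ c / 4 * n v := by positivity
      linarith
    · push Not at h1
      have h4 : (0 : ℝ) ≤ c / 4 * N / U.card := by positivity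
      linarith
  have e1 : ∑ v ∈ U, (t v : ℝ) = G := by exact_mod_cast hsumt
  have e2 : ∑ v ∈ U, (c / 4 * n v + c / 4 * N / U.card) =
      c / 4 * (∑ v ∈ U, (n v : ℝ)) + c / 4 * N := by
    rw [Finset.sum_add_distrib, ← Finset.mul_sum, Finset.sum_const, nsmul_eq_mul]
    field_simp
  have e3 : (∑ v ∈ U, (n v : ℝ)) ≤ N := by exact_mod_cast hsumn
  rw [e1, e2] at hlt
  have : c / 4 * (∑ v ∈ U, (n v : ℝ)) ≤ c / 4 * N :=
    mul_le_mul_of_nonneg_left e3 (by positivity)
  linarith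

set_option maxHeartbeats 1000000 in
/-- One step of the construction. -/
lemma step (B : Set ℕ) (h : ℕ) (W : Finset ℕ) (k C G R y x : ℕ) (D δ c : ℝ) (Q : Set ℕ)
    (hk : 1 ≤ k) (hkR : k ≤ R) (hD : 0 ≤ D) (hδ : 0 ≤ δ) (hc : 0 < c)
    (hcp : ∀ n : ℕ, 1 ≤ n → (cplx B n : ℝ) ≤ D * (n : ℝ) ^ (1 + δ))
    (hsep : Sep (Occ B h W) h k C G) (hQP : Q ⊆ Occ B h W)
    (hN : 0 < cnt (Occ B h W) x)
    (hbad : ((((cnt (Occ B h W) x / (R + 1) + 1) * k + R + (Nat.log 2 x + 1) * R +
      (x / (y + 1) + 1) * R : ℕ)) : ℝ) ≤ c / 2 * cnt (Occ B h W) x)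
    (hQ : c * cnt (Occ B h W) x ≤ cnt Q x) :
    ∃ (l g : ℕ) (U : Finset ℕ), G < g ∧ Sep (Occ B (l + h) U) (l + h) (2 * R) (C + 1) (G + g) ∧
      c / (4 * R) * cnt (Occ B (l + h) U) x ≤
        cnt {q | q ∈ Occ B (l + h) U ∧ q ∈ Q ∧ q + g ∈ Q} x ∧
      c / 4 * cnt (Occ B h W) x ≤ cnt (Occ B (l + h) U) x *
        (((Nat.log 2 y : ℝ) + 1) * (R * D * (3 + 2 * C : ℝ) ^ (1 + δ) * (y : ℝ) ^ δ)) := by
  classical
  set P := Occ B h W with hP
  set N := cnt P x with hNdef
  set 𝒢 : Finset ℕ := (Finset.range x).filter (fun q => q ∈ Q ∧ ∃ l g, q + l ∈ P ∧ q + l < x ∧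
      cnt P (q + l) = cnt P q + R ∧ l ≤ q ∧ l ≤ y ∧ q + g ∈ Q ∧ G < g ∧ g ≤ l) with h𝒢
  have h𝒢mem : ∀ q, q ∈ 𝒢 ↔ (q < x ∧ q ∈ Q ∧ ∃ l g, q + l ∈ P ∧ q + l < x ∧
      cnt P (q + l) = cnt P q + R ∧ l ≤ q ∧ l ≤ y ∧ q + g ∈ Q ∧ G < g ∧ g ≤ l) := by
    intro q; simp [h𝒢]
  have hcount := good_count P Q hQP h k C G R y x hk hkR hsep 𝒢 h𝒢mem
  have hNr : (0 : ℝ) < N := by exact_mod_cast hN
  have h𝒢card : c / 2 * N ≤ 𝒢.card := by
    have : (cnt Q x : ℝ) ≤ 𝒢.card + (((cnt P x / (R + 1) + 1) * k + R + (Nat.log 2 x + 1) * R +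
      (x / (y + 1) + 1) * R : ℕ) : ℝ) := by exact_mod_cast hcount
    linarith
  -- choose data
  have hch : ∀ q, q ∈ 𝒢 → ∃ l g, q + l ∈ P ∧ q + l < x ∧
      cnt P (q + l) = cnt P q + R ∧ l ≤ q ∧ l ≤ y ∧ q + g ∈ Q ∧ G < g ∧ g ≤ l :=
    fun q hq => ((h𝒢mem q).1 hq).2.2
  choose! L gg hLg using hch
  set u : ℕ → ℕ × Finset ℕ := fun q => (L q, pat B q (L q + h)) with hu
  set 𝒰 : Finset (ℕ × Finset ℕ) := 𝒢.image u with h𝒰
  have hgQ : ∀ q ∈ 𝒢, q ∈ Q := fun q hq => ((h𝒢mem q).1 hq).2.1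
  have hgP : ∀ q ∈ 𝒢, q ∈ P := fun q hq => hQP (hgQ q hq)
  have hLsep : ∀ q ∈ 𝒢, h ≤ C * L q ∧ G < L q := by
    intro q hq
    obtain ⟨a1, a2, a3, -⟩ := hLg q hq
    exact hsep q (L q) (hgP q hq) a1 (by rw [a3]; omega)
  -- bound on the number of patterns
  have hV : (𝒰.card : ℝ) ≤ ((Nat.log 2 y : ℝ) + 1) *
      (R * D * (3 + 2 * C : ℝ) ^ (1 + δ) * (y : ℝ) ^ δ) := by
    apply card_patterns_le B h W R C y D δ hD hδ hcp
    intro v hv
    rw [h𝒰, Finset.mem_image] at hv
    obtain ⟨q, hq, rfl⟩ := hv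
    obtain ⟨a1, a2, a3, a4, a5, a6, a7, a8⟩ := hLg q hq
    obtain ⟨b1, b2⟩ := hLsep q hq
    exact ⟨by simp only [hu]; omega, a5, b1, q, a4, hgP q hq, a1, a3, rfl⟩
  -- the occurrence sets of patterns
  have hOccP : ∀ q ∈ 𝒢, ∀ p, p ∈ Occ B (L q + h) (pat B q (L q + h)) →
      p ∈ P ∧ p + L q ∈ P ∧ cnt P (p + L q) = cnt P p + R := by
    intro q hq p hp
    obtain ⟨a1, a2, a3, a4, a5, a6, a7, a8⟩ := hLg q hq
    have hp' : pat B q (L q + h) = pat B p (L q + h) := by
      simp only [Occ, Set.mem_ofPred_eq] at hp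
      exact hp.symm
    have r1 : p ∈ P := by
      have := occ_iff (h := h) (W := W) (i := 0) (N := L q + h) (by omega) hp'
      simpa using this.1 (by simpa using hgP q hq)
    have r2 : p + L q ∈ P := (occ_iff (h := h) (W := W) (i := L q) (N := L q + h) le_rfl hp').1 a1
    refine ⟨r1, r2, ?_⟩
    have := cnt_shift (h := h) (W := W) (m := L q) (N := L q + h) le_rfl hp'
    rw [← hP] at this
    omega
  set t : ℕ × Finset ℕ → Finset ℕ := fun v => 𝒢.filter (fun q => u q = v) with ht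
  set nn : ℕ × Finset ℕ → Finset ℕ := fun v =>
    (Finset.range x).filter (fun p => p ∈ Occ B (v.1 + h) v.2) with hnn
  have hnncard : ∀ v, (nn v).card = cnt (Occ B (v.1 + h) v.2) x := by
    intro v
    unfold cnt
    rw [Nat.count_eq_card_filter_range]
  have hsumn : ∑ v ∈ 𝒰, (nn v).card ≤ N := by
    have hdis : (𝒰 : Set (ℕ × Finset ℕ)).PairwiseDisjoint nn := by
      intro v hv w hw hvw
      rw [Function.onFun, Finset.disjoint_left]
      intro p hpv hpw
      apply hvw
      have hv' : v ∈ 𝒰 := by simpa using hv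
      have hw' : w ∈ 𝒰 := by simpa using hw
      rw [h𝒰, Finset.mem_image] at hv' hw'
      obtain ⟨q, hq, rfl⟩ := hv'
      obtain ⟨q', hq', rfl⟩ := hw'
      simp only [hnn, Finset.mem_filter, hu] at hpv hpw
      obtain ⟨b1, b2, b3⟩ := hOccP q hq p hpv.2
      obtain ⟨d1, d2, d3⟩ := hOccP q' hq' p hpw.2
      have e1 : p + L q = p + L q' := cnt_inj b2 d2 (by rw [b3, d3])
      have e2 : L q = L q' := by omega
      have e3 : pat B q (L q + h) = pat B p (L q + h) := by
        have := hpv.2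
        simp only [Occ, Set.mem_ofPred_eq] at this
        exact this.symm
      have e4 : pat B q' (L q' + h) = pat B p (L q' + h) := by
        have := hpw.2
        simp only [Occ, Set.mem_ofPred_eq] at this
        exact this.symm
      simp only [hu, Prod.mk.injEq]
      exact ⟨e2, by rw [e3, e4, e2]⟩
    rw [← Finset.card_biUnion hdis]
    have hsub : 𝒰.biUnion nn ⊆ (Finset.range x).filter (fun p => p ∈ P) := by
      intro p hp
      rw [Finset.mem_biUnion] at hp
      obtain ⟨v, hv, hpv⟩ := hp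
      rw [h𝒰, Finset.mem_image] at hv
      obtain ⟨q, hq, rfl⟩ := hv
      simp only [hnn, Finset.mem_filter, hu] at hpv
      rw [Finset.mem_filter]
      exact ⟨hpv.1, (hOccP q hq p hpv.2).1⟩
    have := Finset.card_le_card hsub
    rw [hNdef]
    unfold cnt
    rw [Nat.count_eq_card_filter_range]
    exact this
  have hsumt : ∑ v ∈ 𝒰, (t v).card = 𝒢.card := by
    rw [Finset.card_eq_sum_card_fiberwise (f := u) (t := 𝒰)]
    intro q hq
    rw [h𝒰]
    exact Finset.mem_coe.2 (Finset.mem_image_of_mem u (Finset.mem_coe.1 hq))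
  have h𝒢ne : 𝒢.Nonempty := by
    rw [← Finset.card_pos]
    have : (0 : ℝ) < 𝒢.card := lt_of_lt_of_le (by positivity) h𝒢card
    exact_mod_cast this
  have h𝒰ne : 𝒰.Nonempty := h𝒢ne.image u
  have h𝒰pos : (0 : ℝ) < 𝒰.card := by exact_mod_cast Finset.card_pos.2 h𝒰ne
  -- choose a good pattern
  obtain ⟨v, hv, hv1, hv2⟩ := pigeon 𝒰 (fun v => (t v).card) (fun v => (nn v).card) 𝒢.card N c hc
    h𝒰ne hsumt hsumn h𝒢card
  have htne : (t v).Nonempty := by
    rw [← Finset.card_pos]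
    have : (0 : ℝ) < (t v).card * 𝒰.card := lt_of_lt_of_le (by positivity) hv2
    have : (0 : ℝ) < (t v).card := by
      by_contra hcc
      push Not at hcc
      nlinarith
    exact_mod_cast this
  obtain ⟨q0, hq0⟩ := htne
  have hq0' : q0 ∈ 𝒢 ∧ u q0 = v := by simpa [ht] using hq0
  obtain ⟨hq0G, hq0u⟩ := hq0'
  -- the gap pigeonhole
  have hsame : ∀ q ∈ t v, q ∈ 𝒢 ∧ L q = L q0 ∧ pat B q0 (L q0 + h) = pat B q (L q0 + h) := by
    intro q hq
    have hq' : q ∈ 𝒢 ∧ u q = v := by simpa [ht] using hq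
    have : u q = u q0 := by rw [hq'.2, hq0u]
    simp only [hu, Prod.mk.injEq] at this
    refine ⟨hq'.1, this.1, ?_⟩
    rw [← this.2, this.1]
  have himg : ((t v).image gg).card ≤ R := by
    have : (Finset.Ioc (cnt P q0) (cnt P q0 + R)).card ≤ R := by simp
    refine le_trans ?_ this
    have hin : ∀ g ∈ (t v).image gg, q0 + g ∈ P ∧ 0 < g ∧ g ≤ L q0 := by
      intro g hg
      rw [Finset.mem_image] at hg
      obtain ⟨q, hq, rfl⟩ := hg
      obtain ⟨b1, b2, b3⟩ := hsame q hq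
      obtain ⟨a1, a2, a3, a4, a5, a6, a7, a8⟩ := hLg q b1
      refine ⟨?_, by omega, by omega⟩
      exact (occ_iff (h := h) (W := W) (i := gg q) (N := L q0 + h) (by omega) b3).2 (hQP a6)
    apply Finset.card_le_card_of_injOn (fun g => cnt P (q0 + g))
    · intro g hg
      obtain ⟨b1, b2, b3⟩ := hin g (by simpa using hg)
      obtain ⟨a1, a2, a3, a4, a5, a6, a7, a8⟩ := hLg q0 hq0G
      have c1 := cnt_lt (hgP q0 hq0G) (show q0 < q0 + g by omega)
      have c2 : cnt P (q0 + g) ≤ cnt P (q0 + L q0) := cnt_mono P (by omega)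
      simp only [Finset.coe_Ioc, Set.mem_Ioc]
      omega
    · intro g hg g' hg' he
      obtain ⟨b1, b2, b3⟩ := hin g (by simpa using hg)
      obtain ⟨d1, d2, d3⟩ := hin g' (by simpa using hg')
      have := cnt_inj b1 d1 he
      omega
  obtain ⟨g, hg, hgmax⟩ := Finset.exists_max_image ((t v).image gg)
    (fun g => ((t v).filter (fun q => gg q = g)).card) (⟨gg q0, Finset.mem_image_of_mem gg hq0⟩)
  have hfib : (t v).card ≤ ((t v).filter (fun q => gg q = g)).card * R := by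
    have := Finset.card_le_mul_card_image_of_maps_to (f := gg) (s := t v) (t := (t v).image gg)
      (fun a ha => Finset.mem_image_of_mem gg ha) _ (fun b hb => hgmax b hb)
    exact this.trans (Nat.mul_le_mul_left _ himg)
  have hv1' : v.1 = L q0 := by rw [← hq0u]
  have hv2' : v.2 = pat B q0 (L q0 + h) := by rw [← hq0u]
  have hRpos : (0 : ℝ) < R := by
    have : 0 < R := by omega
    exact_mod_cast this
  refine ⟨L q0, g, pat B q0 (L q0 + h), ?_, ?_, ?_, ?_⟩
  · rw [Finset.mem_image] at hg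
    obtain ⟨q, hq, rfl⟩ := hg
    exact (hLg q (hsame q hq).1).2.2.2.2.2.2.1
  · -- separation
    have hgL : g ≤ L q0 := by
      rw [Finset.mem_image] at hg
      obtain ⟨q, hq, rfl⟩ := hg
      obtain ⟨b1, b2, b3⟩ := hsame q hq
      rw [← b2]
      exact (hLg q b1).2.2.2.2.2.2.2
    obtain ⟨s1, s2⟩ := hLsep q0 hq0G
    set P' := Occ B (L q0 + h) (pat B q0 (L q0 + h)) with hP'
    have hP'P : P' ⊆ P := fun p hp => (hOccP q0 hq0G p hp).1
    have hlong : ∀ p m, p ∈ P' → p + m ∈ P' → cnt P' p + R ≤ cnt P' (p + m) → L q0 ≤ m := by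
      intro p m hp hpm hcnt
      have h1 := cnt_diff_subset hP'P (show p ≤ p + m by omega)
      obtain ⟨o1, o2, o3⟩ := hOccP q0 hq0G p hp
      have : p + L q0 ≤ p + m := cnt_le_iff (hP'P hpm) (by rw [o3]; omega)
      omega
    intro p m hp hpm hcnt
    have hLm : 2 * L q0 ≤ m := by
      -- intermediate point
      have h0 : cnt P' (p + L q0) ≤ cnt P' p + R := by
        have h1 := cnt_diff_subset hP'P (show p ≤ p + L q0 by omega)
        obtain ⟨o1, o2, o3⟩ := hOccP q0 hq0G p hp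
        omega
      have hRm : cnt P' (p + L q0) < cnt P' (p + m) := by omega
      -- the element of rank cnt P' (p + L q0)
      obtain ⟨r, hr1, hr2, hr3⟩ := exists_rank hRm
      have hr4 : p + L q0 ≤ r := cnt_le_iff hr2 (by rw [hr3])
      have hpr : p ≤ r := by omega
      obtain ⟨e, rfl⟩ := Nat.exists_eq_add_of_le hpr
      have hrm : p + e ≤ p + m := by omega
      obtain ⟨m', hm'⟩ := Nat.exists_eq_add_of_le hrm
      have := hlong (p + e) m' hr2 (by rw [← hm']; exact hpm) (by rw [← hm', hr3]; omega)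
      omega
    refine ⟨?_, by omega⟩
    calc L q0 + h ≤ L q0 + C * L q0 := by omega
      _ = (C + 1) * L q0 := by ring
      _ ≤ (C + 1) * m := Nat.mul_le_mul_left _ (by omega)
  · -- density
    have hle : ((t v).filter (fun q => gg q = g)).card ≤
        cnt {q | q ∈ Occ B (L q0 + h) (pat B q0 (L q0 + h)) ∧ q ∈ Q ∧ q + g ∈ Q} x := by
      unfold cnt
      rw [Nat.count_eq_card_filter_range]
      apply Finset.card_le_card
      intro q hq
      rw [Finset.mem_filter] at hq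
      obtain ⟨b1, b2, b3⟩ := hsame q hq.1
      obtain ⟨a1, a2, a3, a4, a5, a6, a7, a8⟩ := hLg q b1
      simp only [Finset.mem_filter, Finset.mem_range, Set.mem_ofPred_eq]
      refine ⟨((h𝒢mem q).1 b1).1, ?_, hgQ q b1, ?_⟩
      · simp only [Occ, Set.mem_ofPred_eq]
        exact b3.symm
      · rw [← hq.2]; exact a6
    have h1 : c / 4 * cnt (Occ B (L q0 + h) (pat B q0 (L q0 + h))) x ≤ (t v).card := by
      have := hv1
      rw [hnncard, hv1', hv2'] at this
      exact this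
    have h2 : ((t v).card : ℝ) ≤ ((t v).filter (fun q => gg q = g)).card * R := by
      exact_mod_cast hfib
    have h3 : (((t v).filter (fun q => gg q = g)).card : ℝ) ≤
        cnt {q | q ∈ Occ B (L q0 + h) (pat B q0 (L q0 + h)) ∧ q ∈ Q ∧ q + g ∈ Q} x := by
      exact_mod_cast hle
    have h4 : c / (4 * R) * cnt (Occ B (L q0 + h) (pat B q0 (L q0 + h))) x =
        (c / 4 * cnt (Occ B (L q0 + h) (pat B q0 (L q0 + h))) x) / R := by
      field_simp
    rw [h4, div_le_iff₀ hRpos]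
    calc _ ≤ _ := h1
      _ ≤ _ := h2
      _ ≤ _ := mul_le_mul_of_nonneg_right h3 hRpos.le
  · -- size
    have h1 : ((t v).card : ℝ) ≤ cnt (Occ B (L q0 + h) (pat B q0 (L q0 + h))) x := by
      have : (t v).card ≤ cnt (Occ B (L q0 + h) (pat B q0 (L q0 + h))) x := by
        unfold cnt
        rw [Nat.count_eq_card_filter_range]
        apply Finset.card_le_card
        intro q hq
        obtain ⟨b1, b2, b3⟩ := hsame q hq
        simp only [Finset.mem_filter, Finset.mem_range]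
        refine ⟨((h𝒢mem q).1 b1).1, ?_⟩
        simp only [Occ, Set.mem_ofPred_eq]
        exact b3.symm
      exact_mod_cast this
    calc _ ≤ _ := hv2
      _ ≤ _ := mul_le_mul h1 hV h𝒰pos.le (by positivity)

lemma eventually_log_le (A a : ℝ) (hA : 0 ≤ A) (ha : 0 < a) (L : ℕ) :
    ∀ᶠ x : ℕ in atTop, A * ((Nat.log 2 (L * x) : ℝ) + 1) ≤ (x : ℝ) ^ a := by
  have ha2 : 0 < a / 2 := by positivity
  have hl2 : 0 < Real.log 2 := Real.log_pos (by norm_num)
  set C0 : ℝ := A * ((L : ℝ) ^ (a / 2) / (a / 2) / Real.log 2 + 1) with hC0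
  have ht : Tendsto (fun x : ℕ => (x : ℝ) ^ (a / 2)) atTop atTop :=
    (tendsto_rpow_atTop ha2).comp tendsto_natCast_atTop_atTop
  filter_upwards [ht.eventually_ge_atTop C0, eventually_ge_atTop 1] with x hx hx1
  have hx1r : (1 : ℝ) ≤ x := by exact_mod_cast hx1
  have h1 : (Nat.log 2 (L * x) : ℝ) ≤ Real.log ((L * x : ℕ) : ℝ) / Real.log 2 := by
    have := Real.natLog_le_logb (L * x) 2
    rw [Real.logb] at this
    exact_mod_cast this
  have h2 : Real.log ((L * x : ℕ) : ℝ) ≤ ((L * x : ℕ) : ℝ) ^ (a / 2) / (a / 2) :=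
    Real.log_le_rpow_div (by positivity) ha2
  have h3 : ((L * x : ℕ) : ℝ) ^ (a / 2) = (L : ℝ) ^ (a / 2) * (x : ℝ) ^ (a / 2) := by
    push_cast
    rw [Real.mul_rpow (by positivity) (by positivity)]
  have h4 : (1 : ℝ) ≤ (x : ℝ) ^ (a / 2) := Real.one_le_rpow hx1r ha2.le
  have h5 : (Nat.log 2 (L * x) : ℝ) + 1 ≤
      ((L : ℝ) ^ (a / 2) / (a / 2) / Real.log 2 + 1) * (x : ℝ) ^ (a / 2) := by
    have : Real.log ((L * x : ℕ) : ℝ) / Real.log 2 ≤
        ((L : ℝ) ^ (a / 2) / (a / 2) / Real.log 2) * (x : ℝ) ^ (a / 2) := by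
      rw [div_le_iff₀ hl2]
      calc _ ≤ _ := h2
        _ = _ := by rw [h3]; field_simp
    calc _ ≤ ((L : ℝ) ^ (a / 2) / (a / 2) / Real.log 2) * (x : ℝ) ^ (a / 2) + 1 := by linarith
      _ ≤ _ := by nlinarith
  calc A * ((Nat.log 2 (L * x) : ℝ) + 1)
      ≤ A * (((L : ℝ) ^ (a / 2) / (a / 2) / Real.log 2 + 1) * (x : ℝ) ^ (a / 2)) :=
        mul_le_mul_of_nonneg_left h5 hA
    _ = C0 * (x : ℝ) ^ (a / 2) := by rw [hC0]; ring
    _ ≤ (x : ℝ) ^ (a / 2) * (x : ℝ) ^ (a / 2) := mul_le_mul_of_nonneg_right hx (by positivity)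
    _ = (x : ℝ) ^ a := by
      rw [← Real.rpow_add (by linarith)]
      congr 1
      ring

lemma alg_aux (N P c X Y D A s w z : ℝ) (hc : 0 < c) (hP : 0 ≤ P) (hX : 0 < X)
    (hY : 0 < Y) (hD : 0 ≤ D) (hA : 0 ≤ A) (hs : 0 ≤ s) (hw : 0 ≤ w) (hz : 0 ≤ z)
    (h1 : c / 4 * N ≤ P * (Y * ((9 * (X * X)) * D * A * ((s * w) * z))))
    (hconst : 4 * (9 * D * A * s) ≤ Y) (hcX : 1 / c ≤ X) :
    N ≤ P * (z * (Y * (Y * (X * X * X) * w))) := by
  have h3 : N = 4 * (1 / c) * (c / 4 * N) := by field_simp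
  have hr : 0 ≤ P * (Y * ((9 * (X * X)) * D * A * ((s * w) * z))) := by positivity
  calc N = 4 * (1 / c) * (c / 4 * N) := h3
    _ ≤ 4 * (1 / c) * (P * (Y * ((9 * (X * X)) * D * A * ((s * w) * z)))) :=
        mul_le_mul_of_nonneg_left h1 (by positivity)
    _ ≤ 4 * X * (P * (Y * ((9 * (X * X)) * D * A * ((s * w) * z)))) :=
        mul_le_mul_of_nonneg_right (by linarith) hr
    _ = P * (z * ((4 * (9 * D * A * s)) * (Y * (X * X * X) * w))) := by ring
    _ ≤ P * (z * (Y * (Y * (X * X * X) * w))) := by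
        apply mul_le_mul_of_nonneg_left _ hP
        apply mul_le_mul_of_nonneg_left _ hz
        apply mul_le_mul_of_nonneg_right hconst (by positivity)

lemma concl_aux (x N P δ η a τ : ℝ) (hx0 : 0 < x) (hNr : 0 < N) (ha : a = (1 - η) * (1 + δ))
    (hN : x ^ η ≤ N) (hδ : 0 ≤ δ) (e4 : N ≤ P * ((x / N) ^ δ * x ^ τ)) :
    x ^ (1 - (a + τ)) ≤ P := by
  have e5 : x ^ (1 - a) ≤ N * (N / x) ^ δ := by
    have h1 : N * (N / x) ^ δ = N ^ (1 + δ) / x ^ δ := by
      rw [Real.div_rpow hNr.le hx0.le, Real.rpow_add hNr, Real.rpow_one]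
      ring
    rw [h1, le_div_iff₀ (Real.rpow_pos_of_pos hx0 _), ← Real.rpow_add hx0]
    calc x ^ (1 - a + δ) = (x ^ η) ^ (1 + δ) := by
          rw [← Real.rpow_mul hx0.le]
          congr 1
          rw [ha]; ring
      _ ≤ _ := Real.rpow_le_rpow (by positivity) hN (by linarith)
  have e6 : N * (N / x) ^ δ ≤ P * x ^ τ := by
    have h1 : (x / N) ^ δ * (N / x) ^ δ = 1 := by
      rw [← Real.mul_rpow (by positivity) (by positivity)]
      have : x / N * (N / x) = 1 := by field_simp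
      rw [this, Real.one_rpow]
    calc N * (N / x) ^ δ ≤ (P * ((x / N) ^ δ * x ^ τ)) * (N / x) ^ δ :=
          mul_le_mul_of_nonneg_right e4 (by positivity)
      _ = P * x ^ τ * ((x / N) ^ δ * (N / x) ^ δ) := by ring
      _ = _ := by rw [h1, mul_one]
  have e7 : x ^ (1 - (a + τ)) * x ^ τ = x ^ (1 - a) := by
    rw [← Real.rpow_add hx0]; congr 1; ring
  have hxτ : 0 < x ^ τ := Real.rpow_pos_of_pos hx0 _
  have e8 : x ^ (1 - (a + τ)) * x ^ τ ≤ P * x ^ τ := by
    rw [e7]; exact e5.trans e6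
  exact le_of_mul_le_mul_right e8 hxτ

set_option maxHeartbeats 1000000 in
/-- The main induction. -/
lemma main_ind (B : Set ℕ) (D δ : ℝ) (hD : 0 ≤ D) (hδ : 0 ≤ δ)
    (hcp : ∀ n : ℕ, 1 ≤ n → (cplx B n : ℝ) ≤ D * (n : ℝ) ^ (1 + δ)) :
    ∀ d : ℕ, ∀ (C : ℕ) (η : ℝ), (1 - η) * (1 + δ) ^ d < 1 →
      ∃ γ : ℝ, 0 < γ ∧ ∃ X0 : ℕ, ∀ x ≥ X0, ∀ (k : ℕ) (c : ℝ), 1 ≤ k → (k : ℝ) ≤ (x : ℝ) ^ γ →
        (x : ℝ) ^ (-γ) ≤ c → ∀ (h : ℕ) (W : Finset ℕ) (G : ℕ) (Q : Set ℕ),
        Sep (Occ B h W) h k C G → Q ⊆ Occ B h W → (x : ℝ) ^ η ≤ cnt (Occ B h W) x →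
        c * cnt (Occ B h W) x ≤ cnt Q x → HasCube (d + 1) G Q := by
  intro d
  induction d with
  | zero =>
    intro C η hη
    have hη0 : 0 < η := by
      rw [pow_zero, mul_one] at hη; linarith
    have ht : Tendsto (fun x : ℕ => (x : ℝ) ^ (η / 3)) atTop atTop :=
      (tendsto_rpow_atTop (by positivity)).comp tendsto_natCast_atTop_atTop
    obtain ⟨X0, hX0⟩ := eventually_atTop.1 (ht.eventually_ge_atTop 2)
    refine ⟨η / 3, by positivity, max X0 1, ?_⟩
    intro x hx k c hk hkx hcx h W G Q hsep hQP hN hQ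
    have hx1 : 1 ≤ x := le_trans (le_max_right _ _) hx
    have hx0 : (0 : ℝ) < x := by
      have : 0 < x := hx1
      exact_mod_cast this
    have h2x := hX0 x (le_trans (le_max_left _ _) hx)
    have hc0 : 0 ≤ c := le_trans (by positivity) hcx
    have h1 : (k + 1 : ℝ) ≤ cnt Q x := by
      have hk1 : (1 : ℝ) ≤ k := by exact_mod_cast hk
      have e1 : (x : ℝ) ^ (-(η / 3)) * (x : ℝ) ^ η = (x : ℝ) ^ (η / 3) * (x : ℝ) ^ (η / 3) := by
        rw [← Real.rpow_add hx0, ← Real.rpow_add hx0]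
        congr 1; ring
      calc (k + 1 : ℝ) ≤ (x : ℝ) ^ (η / 3) + (x : ℝ) ^ (η / 3) := by linarith
        _ ≤ (x : ℝ) ^ (η / 3) * (x : ℝ) ^ (η / 3) := by nlinarith
        _ = (x : ℝ) ^ (-(η / 3)) * (x : ℝ) ^ η := e1.symm
        _ ≤ c * cnt (Occ B h W) x := mul_le_mul hcx hN (by positivity) hc0
        _ ≤ _ := hQ
    have h2 : k + 1 ≤ cnt Q x := by exact_mod_cast h1
    obtain ⟨q1, a1, a2, a3⟩ := exists_rank (P := Q) (x := x) (m := 0) (by omega)
    obtain ⟨q2, b1, b2, b3⟩ := exists_rank (P := Q) (x := x) (m := k) (by omega)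
    have h12 : q1 ≤ q2 := cnt_le_iff b2 (by omega)
    obtain ⟨g, rfl⟩ := Nat.exists_eq_add_of_le h12
    have h3 := cnt_diff_subset hQP h12
    have h4 := (hsep q1 g (hQP a2) (hQP b2) (by omega)).2
    exact ⟨g, h4, q1, a2, b2⟩
  | succ d ih =>
    intro C η hη
    have hone : 1 ≤ (1 + δ) ^ (d + 1) := one_le_pow₀ (by linarith)
    have hη0 : 0 < η := by
      by_contra hcon
      push Not at hcon
      nlinarith
    set a : ℝ := (1 - η) * (1 + δ) with ha
    have hpd : 0 < (1 + δ) ^ d := by positivity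
    have had : a * (1 + δ) ^ d < 1 := by
      rw [ha]; rw [pow_succ] at hη; nlinarith
    set τ : ℝ := (1 - a * (1 + δ) ^ d) / (2 * (1 + δ) ^ d) with hτ
    have hτ0 : 0 < τ := by
      rw [hτ]; apply div_pos (by linarith) (by positivity)
    have hτ1 : (a + τ) * (1 + δ) ^ d < 1 := by
      have : τ * (1 + δ) ^ d = (1 - a * (1 + δ) ^ d) / 2 := by
        rw [hτ]; field_simp
      rw [add_mul, this]; linarith
    clear_value τ a
    obtain ⟨γ', hγ', X1, hX1⟩ := ih (C + 1) (1 - (a + τ)) (by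
      linarith [hτ1, show (1 - (1 - (a + τ))) = a + τ by ring])
    -- choice of the exponent
    obtain ⟨γ, hγ0, hγ1, hγ2, hγ3, hγ4⟩ : ∃ γ : ℝ, 0 < γ ∧ 4 * γ ≤ γ' ∧ 6 * γ ≤ η ∧
        (5 + 4 * δ) * γ ≤ τ ∧ γ ≤ 1 / 4 := by
      refine ⟨min (min (γ' / 4) (η / 6)) (min (τ / (5 + 4 * δ)) (1 / 4)), ?_, ?_, ?_, ?_, ?_⟩
      · apply lt_min (lt_min (by positivity) (by positivity))
          (lt_min (by positivity) (by norm_num))
      · have := (min_le_left (min (γ' / 4) (η / 6)) (min (τ / (5 + 4 * δ)) (1 / 4))).trans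
          (min_le_left _ _)
        linarith
      · have := (min_le_left (min (γ' / 4) (η / 6)) (min (τ / (5 + 4 * δ)) (1 / 4))).trans
          (min_le_right _ _)
        linarith
      · have := (min_le_right (min (γ' / 4) (η / 6)) (min (τ / (5 + 4 * δ)) (1 / 4))).trans
          (min_le_left _ _)
        rw [le_div_iff₀ (by positivity)] at this
        linarith
      · exact (min_le_right (min (γ' / 4) (η / 6)) (min (τ / (5 + 4 * δ)) (1 / 4))).trans
          (min_le_right _ _)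
    -- asymptotic conditions
    have hE1 : ∀ᶠ x : ℕ in atTop, (4000 : ℝ) * ((Nat.log 2 (1 * x) : ℝ) + 1) ≤ (x : ℝ) ^ γ :=
      eventually_log_le _ γ (by positivity) hγ0 1
    have hE2 : ∀ᶠ x : ℕ in atTop,
        ((4 : ℝ) * (9 * D * (3 + 2 * C : ℝ) ^ (1 + δ) * (73 : ℝ) ^ δ)) *
        ((Nat.log 2 (1 * x) : ℝ) + 1) ≤ (x : ℝ) ^ (γ / 2) :=
      eventually_log_le _ (γ / 2) (by positivity) (by positivity) 1
    have hE3 : ∀ᶠ x : ℕ in atTop, (2 : ℝ) * ((Nat.log 2 (1 * x) : ℝ) + 1) ≤ (x : ℝ) ^ (γ / 2) :=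
      eventually_log_le _ (γ / 2) (by positivity) (by positivity) 1
    obtain ⟨X2, hX2⟩ := eventually_atTop.1 hE1
    obtain ⟨X3, hX3⟩ := eventually_atTop.1 (hE2.and hE3)
    refine ⟨γ, hγ0, max (max X1 X2) (max X3 1), ?_⟩
    intro x hx k c hk hkx hcx h W G Q hsep hQP hN hQ
    have hx1 : X1 ≤ x := le_trans (le_trans (le_max_left _ _) (le_max_left _ _)) hx
    have hx2 : X2 ≤ x := le_trans (le_trans (le_max_right _ _) (le_max_left _ _)) hx
    have hx3 : X3 ≤ x := le_trans (le_trans (le_max_left _ _) (le_max_right _ _)) hx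
    have hx4 : 1 ≤ x := le_trans (le_trans (le_max_right _ _) (le_max_right _ _)) hx
    have hxr : (1 : ℝ) ≤ x := by exact_mod_cast hx4
    have hx0 : (0 : ℝ) < x := by linarith
    -- we may assume `c ≤ 1`
    have hcpos : 0 < c := lt_of_lt_of_le (Real.rpow_pos_of_pos hx0 _) hcx
    have hxγ1 : (1 : ℝ) ≤ (x : ℝ) ^ γ := Real.one_le_rpow hxr hγ0.le
    have hcle : (x : ℝ) ^ (-γ) ≤ min c 1 := le_min hcx (by
      rw [Real.rpow_neg hx0.le]; exact inv_le_one_of_one_le₀ hxγ1)
    have hQ' : min c 1 * cnt (Occ B h W) x ≤ cnt Q x :=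
      (mul_le_mul_of_nonneg_right (min_le_left _ _) (by positivity)).trans hQ
    obtain ⟨c, hc1, hcx, hQ⟩ : ∃ c : ℝ, c ≤ 1 ∧ (x : ℝ) ^ (-γ) ≤ c ∧
        c * cnt (Occ B h W) x ≤ cnt Q x := ⟨min c 1, min_le_right _ _, hcle, hQ'⟩
    have hc : 0 < c := lt_of_lt_of_le (Real.rpow_pos_of_pos hx0 _) hcx
    set X : ℝ := (x : ℝ) ^ γ with hX
    have hXpos : 0 < X := by positivity
    clear_value X
    have hcX : 1 / c ≤ X := by
      rw [div_le_iff₀ hc]
      rw [Real.rpow_neg hx0.le, ← hX, inv_eq_one_div, div_le_iff₀ hXpos] at hcx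
      linarith
    have hkr : (1 : ℝ) ≤ k := by exact_mod_cast hk
    obtain ⟨R, hRk, hR8, hRX⟩ : ∃ R : ℕ, k ≤ R ∧ (8 * k : ℝ) / c ≤ R + 1 ∧
        (R : ℝ) ≤ 9 * (X * X) := by
      refine ⟨⌈(8 * k : ℝ) / c⌉₊, ?_, ?_, ?_⟩
      · have h1 : (k : ℝ) ≤ (8 * k : ℝ) / c := by
          rw [le_div_iff₀ hc]; nlinarith
        have h2 := h1.trans (Nat.le_ceil ((8 * k : ℝ) / c))
        exact_mod_cast h2
      · have := Nat.le_ceil ((8 * k : ℝ) / c)
        linarith
      · have h1 := (Nat.ceil_lt_add_one (show 0 ≤ (8 * k : ℝ) / c by positivity)).le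
        have h2 : (8 * k : ℝ) / c ≤ 8 * (X * X) := by
          have : (8 * k : ℝ) / c = 8 * (k * (1 / c)) := by ring
          rw [this]
          have : (k : ℝ) * (1 / c) ≤ X * X := mul_le_mul hkx hcX (by positivity) hXpos.le
          linarith
        nlinarith
    have hRpos : (0 : ℝ) < R := by
      have : 0 < R := by omega
      exact_mod_cast this
    have hR1 : (1 : ℝ) ≤ R := by
      have : 1 ≤ R := by omega
      exact_mod_cast this
    obtain ⟨Λ, hΛ1, hΛ8, hΛX⟩ : ∃ Λ : ℕ, 1 ≤ Λ ∧ (8 * R : ℝ) / c ≤ Λ ∧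
        (Λ : ℝ) ≤ 73 * (X * X * X) := by
      refine ⟨⌈(8 * R : ℝ) / c⌉₊, ?_, Nat.le_ceil _, ?_⟩
      · apply Nat.one_le_ceil_iff.2; positivity
      · have h1 := (Nat.ceil_lt_add_one (show 0 ≤ (8 * R : ℝ) / c by positivity)).le
        have h2 : (8 * R : ℝ) / c ≤ 72 * (X * X * X) := by
          have e : (8 * R : ℝ) / c = 8 * (R * (1 / c)) := by ring
          rw [e]
          have : (R : ℝ) * (1 / c) ≤ 9 * (X * X) * X := mul_le_mul hRX hcX (by positivity) (by positivity)
          linarith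
        have h3 : 1 ≤ X * X * X := by nlinarith [mul_pos hXpos hXpos]
        linarith
    set N := cnt (Occ B h W) x with hNdef
    have hNr : (0 : ℝ) < N := lt_of_lt_of_le (Real.rpow_pos_of_pos hx0 _) hN
    have hNpos : 0 < N := by exact_mod_cast hNr
    have hNx : N ≤ x := cnt_le_self _ _
    have hNxr : (N : ℝ) ≤ x := by exact_mod_cast hNx
    set y := Λ * x / N with hy
    have hy1 : (y : ℝ) ≤ Λ * x / N := by
      have := @Nat.cast_div_le ℝ _ _ _ (Λ * x) N
      push_cast at this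
      exact this
    have hy2 : (Λ * x / N : ℝ) < y + 1 := by
      rw [div_lt_iff₀ hNr]
      have : Λ * x < (y + 1) * N := by
        have h1 := Nat.div_add_mod (Λ * x) N
        have h2 := Nat.mod_lt (Λ * x) hNpos
        rw [← hy] at h1
        nlinarith
      exact_mod_cast this
    have hyx : y ≤ Λ * x := Nat.div_le_self _ _
    have hΛr : (0 : ℝ) < Λ := by exact_mod_cast hΛ1
    have hlog0 : (0 : ℝ) ≤ Nat.log 2 x := Nat.cast_nonneg _
    have hlogX : 4000 * ((Nat.log 2 x : ℝ) + 1) ≤ X := by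
      have := hX2 x hx2
      rw [one_mul] at this
      rw [hX]; exact this
    have hX4N : X * X * X * X ≤ N := by
      have e : X * X * X * X = (x : ℝ) ^ (4 * γ) := by
        rw [hX, ← Real.rpow_add hx0, ← Real.rpow_add hx0, ← Real.rpow_add hx0]
        congr 1; ring
      rw [e]
      exact (Real.rpow_le_rpow_of_exponent_le hxr (by linarith)).trans hN
    have hbad : ((((N / (R + 1) + 1) * k + R + (Nat.log 2 x + 1) * R +
      (x / (y + 1) + 1) * R : ℕ)) : ℝ) ≤ c / 2 * N := by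
      push_cast
      have b1 : ((N / (R + 1) : ℕ) : ℝ) ≤ N / (R + 1) := by
        have := @Nat.cast_div_le ℝ _ _ _ N (R + 1)
        push_cast at this
        exact this
      have b2 : ((x / (y + 1) : ℕ) : ℝ) ≤ x / (y + 1) := by
        have := @Nat.cast_div_le ℝ _ _ _ x (y + 1)
        push_cast at this
        exact this
      have b3 : (x : ℝ) / (y + 1) ≤ N / Λ := by
        rw [div_le_div_iff₀ (by positivity) hΛr]
        have := (div_lt_iff₀ hNr).1 hy2
        linarith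
      have b4 : (N : ℝ) / (R + 1) * k ≤ c / 8 * N := by
        have h8 : 8 * (k : ℝ) ≤ c * (R + 1) := by
          rw [div_le_iff₀ hc] at hR8; linarith
        rw [div_mul_eq_mul_div, div_le_iff₀ (by positivity)]
        nlinarith
      have b5 : (N : ℝ) / Λ * R ≤ c / 8 * N := by
        have h8 : 8 * (R : ℝ) ≤ c * Λ := by
          rw [div_le_iff₀ hc] at hΛ8; linarith
        rw [div_mul_eq_mul_div, div_le_iff₀ hΛr]
        nlinarith
      have hk0 : (0 : ℝ) ≤ k := by positivity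
      have b7 : ((k : ℝ) + 3 * R) * ((Nat.log 2 x : ℝ) + 1) ≤ c / 4 * N := by
        have hkR' : (k : ℝ) ≤ R := by exact_mod_cast hRk
        have r1 : ((k : ℝ) + 3 * R) * ((Nat.log 2 x : ℝ) + 1) ≤ (36 * (X * X)) * (X / 4000) := by
          apply mul_le_mul
          · linarith
          · linarith
          · positivity
          · positivity
        have r2 : 1 ≤ c * X := by
          rw [div_le_iff₀ hc] at hcX; linarith
        have r3 : X * X * X ≤ c * N := by
          calc X * X * X = 1 * (X * X * X) := by ring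
            _ ≤ (c * X) * (X * X * X) := mul_le_mul_of_nonneg_right r2 (by positivity)
            _ = c * (X * X * X * X) := by ring
            _ ≤ c * N := mul_le_mul_of_nonneg_left hX4N hc.le
        nlinarith
      have c1 : ((N / (R + 1) : ℕ) : ℝ) * k ≤ c / 8 * N :=
        (mul_le_mul_of_nonneg_right b1 hk0).trans b4
      have c2 : ((x / (y + 1) : ℕ) : ℝ) * R ≤ c / 8 * N :=
        ((mul_le_mul_of_nonneg_right (b2.trans b3) hRpos.le)).trans b5
      have c3 : (k : ℝ) + R + ((Nat.log 2 x : ℝ) + 1) * R + R ≤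
          ((k : ℝ) + 3 * R) * ((Nat.log 2 x : ℝ) + 1) := by
        have q1 := mul_nonneg hk0 hlog0
        have q2 := mul_nonneg hRpos.le hlog0
        have q3 : ((k : ℝ) + 3 * R) * ((Nat.log 2 x : ℝ) + 1) -
          ((k : ℝ) + R + ((Nat.log 2 x : ℝ) + 1) * R + R) =
            k * (Nat.log 2 x : ℝ) + 2 * (R * (Nat.log 2 x : ℝ)) := by ring
        linarith
      have c4 : (((N / (R + 1) : ℕ) : ℝ) + 1) * k + R + ((Nat.log 2 x : ℝ) + 1) * R +
          (((x / (y + 1) : ℕ) : ℝ) + 1) * R =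
          ((N / (R + 1) : ℕ) : ℝ) * k + ((x / (y + 1) : ℕ) : ℝ) * R +
            ((k : ℝ) + R + ((Nat.log 2 x : ℝ) + 1) * R + R) := by ring
      rw [c4]
      linarith
    obtain ⟨l, g, U, hg, hsep', hdens, hsize⟩ := step B h W k C G R y x D δ c Q hk hRk hD hδ hc hcp
      hsep hQP hNpos hbad hQ
    rw [← hNdef] at hsize
    refine ⟨g, hg, ?_⟩
    set P' := Occ B (l + h) U with hP'
    set Q' : Set ℕ := {q | q ∈ P' ∧ q ∈ Q ∧ q + g ∈ Q} with hQ'
    have hQ'sub : Q' ⊆ {q | q ∈ Q ∧ q + g ∈ Q} := by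
      intro q hq
      exact ⟨hq.2.1, hq.2.2⟩
    refine HasCube.mono' hQ'sub ?_
    have hX36 : 36 ≤ X := by linarith
    apply hX1 x hx1 (2 * R) (c / (4 * R)) (by omega) ?_ ?_ (l + h) U (G + g) Q' hsep'
      (fun q hq => hq.1) ?_ hdens
    · -- `2 R ≤ x ^ γ'`
      push_cast
      calc 2 * (R : ℝ) ≤ 18 * (X * X) := by linarith
        _ ≤ X * X * X := by nlinarith [mul_pos hXpos hXpos]
        _ = (x : ℝ) ^ (3 * γ) := by
          rw [hX, ← Real.rpow_add hx0, ← Real.rpow_add hx0]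
          congr 1; ring
        _ ≤ _ := Real.rpow_le_rpow_of_exponent_le hxr (by linarith)
    · -- `x ^ (-γ') ≤ c / (4 R)`
      have r2 : 1 ≤ c * X := by
        rw [div_le_iff₀ hc] at hcX; linarith
      have r4 : (x : ℝ) ^ (4 * γ) = X * X * X * X := by
        rw [hX, ← Real.rpow_add hx0, ← Real.rpow_add hx0, ← Real.rpow_add hx0]
        congr 1; ring
      rw [le_div_iff₀ (by positivity)]
      calc (x : ℝ) ^ (-γ') * (4 * R) ≤ (x : ℝ) ^ (-(4 * γ)) * (36 * (X * X)) := by
            apply mul_le_mul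
            · exact Real.rpow_le_rpow_of_exponent_le hxr (by linarith)
            · linarith
            · positivity
            · positivity
        _ = (36 * (X * X)) / (X * X * X * X) := by
            rw [Real.rpow_neg hx0.le, r4]; field_simp
        _ ≤ c := by
            rw [div_le_iff₀ (by positivity)]
            calc 36 * (X * X) ≤ X * (X * X) := mul_le_mul_of_nonneg_right hX36 (by positivity)
              _ = 1 * (X * X * X) := by ring
              _ ≤ (c * X) * (X * X * X) := mul_le_mul_of_nonneg_right r2 (by positivity)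
              _ = _ := by ring
    -- lower bound for the count of `P'`
    rw [← hP']
    have e1 : (y : ℝ) ^ δ ≤ (Λ : ℝ) ^ δ * ((x : ℝ) / N) ^ δ := by
      rw [← Real.mul_rpow (by positivity) (by positivity)]
      apply Real.rpow_le_rpow (by positivity) _ hδ
      calc (y : ℝ) ≤ _ := hy1
        _ = _ := by ring
    have hΛδ : (Λ : ℝ) ^ δ ≤ (73 : ℝ) ^ δ * (x : ℝ) ^ (3 * δ * γ) := by
      have e : (73 : ℝ) ^ δ * (x : ℝ) ^ (3 * δ * γ) = (73 * (X * X * X)) ^ δ := by
        rw [Real.mul_rpow (by positivity) (by positivity)]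
        congr 1
        rw [hX, ← Real.rpow_add hx0, ← Real.rpow_add hx0, ← Real.rpow_mul hx0.le]
        congr 1; ring
      rw [e]
      exact Real.rpow_le_rpow hΛr.le hΛX hδ
    have hylog : (Nat.log 2 y : ℝ) + 1 ≤ 2 * ((Nat.log 2 (1 * x) : ℝ) + 1) := by
      -- `y ≤ Λ x ≤ x ^ 2`
      have hΛx : (Λ : ℝ) ≤ x := by
        have : X * X * X * X ≤ x := hX4N.trans hNxr
        have h73 : (73 : ℝ) ≤ X := by linarith
        calc (Λ : ℝ) ≤ 73 * (X * X * X) := hΛX
          _ ≤ X * (X * X * X) := mul_le_mul_of_nonneg_right h73 (by positivity)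
          _ = X * X * X * X := by ring
          _ ≤ _ := this
      have hΛx' : Λ ≤ x := by exact_mod_cast hΛx
      have hyxx : y ≤ x ^ 2 := by
        calc y ≤ Λ * x := hyx
          _ ≤ x * x := Nat.mul_le_mul_right _ hΛx'
          _ = x ^ 2 := by ring
      have h1 : Nat.log 2 y ≤ 2 * Nat.log 2 x + 1 := by
        have h2 : x < 2 ^ (Nat.log 2 x + 1) := Nat.lt_pow_succ_log_self (by norm_num) x
        have h3 : x ^ 2 < 2 ^ (2 * Nat.log 2 x + 2) := by
          calc x ^ 2 < (2 ^ (Nat.log 2 x + 1)) ^ 2 := Nat.pow_lt_pow_left h2 (by norm_num)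
            _ = _ := by rw [← pow_mul]; congr 1; ring
        have h4 : y < 2 ^ (2 * Nat.log 2 x + 2) := lt_of_le_of_lt hyxx h3
        by_cases hy0 : y = 0
        · rw [hy0]; simp
        · have := (Nat.log_lt_iff_lt_pow (by norm_num : 1 < 2) hy0).2 h4
          omega
      rw [one_mul]
      have h5 : (Nat.log 2 y : ℝ) ≤ 2 * Nat.log 2 x + 1 := by exact_mod_cast h1
      linarith
    obtain ⟨hX3a, hX3b⟩ := hX3 x hx3
    have hN'0 : (0 : ℝ) ≤ cnt P' x := by positivity
    set Y : ℝ := (x : ℝ) ^ (γ / 2) with hY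
    have hYpos : 0 < Y := by positivity
    clear_value Y
    have hYY : Y * Y = X := by
      rw [hY, hX, ← Real.rpow_add hx0]; congr 1; ring
    have e3 : ((Nat.log 2 y : ℝ) + 1) * (R * D * (3 + 2 * C : ℝ) ^ (1 + δ) * (y : ℝ) ^ δ) ≤
        Y * ((9 * (X * X)) * D * (3 + 2 * C : ℝ) ^ (1 + δ) *
          (((73 : ℝ) ^ δ * (x : ℝ) ^ (3 * δ * γ)) * ((x : ℝ) / N) ^ δ)) := by
      apply mul_le_mul
      · exact hylog.trans hX3b
      · apply mul_le_mul
        · apply mul_le_mul_of_nonneg_right _ (by positivity)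
          apply mul_le_mul_of_nonneg_right hRX hD
        · exact e1.trans (mul_le_mul_of_nonneg_right hΛδ (by positivity))
        · positivity
        · positivity
      · positivity
      · positivity
    have e4 : (N : ℝ) ≤ cnt P' x * (((x : ℝ) / N) ^ δ * (x : ℝ) ^ τ) := by
      have h1 : c / 4 * (N : ℝ) ≤ cnt P' x * (Y * ((9 * (X * X)) * D * (3 + 2 * C : ℝ) ^ (1 + δ) *
          (((73 : ℝ) ^ δ * (x : ℝ) ^ (3 * δ * γ)) * ((x : ℝ) / N) ^ δ))) :=
        hsize.trans (mul_le_mul_of_nonneg_left e3 hN'0)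
      have hlog1 : (1 : ℝ) ≤ (Nat.log 2 (1 * x) : ℝ) + 1 := by
        have : (0 : ℝ) ≤ (Nat.log 2 (1 * x) : ℝ) := Nat.cast_nonneg _
        linarith
      have hconst : (4 : ℝ) * (9 * D * (3 + 2 * C : ℝ) ^ (1 + δ) * (73 : ℝ) ^ δ) ≤ Y := by
        refine le_trans ?_ hX3a
        exact le_mul_of_one_le_right (by positivity) hlog1
      have h5 := alg_aux N (cnt P' x) c X Y D ((3 + 2 * C : ℝ) ^ (1 + δ)) ((73 : ℝ) ^ δ)
        ((x : ℝ) ^ (3 * δ * γ)) (((x : ℝ) / N) ^ δ) hc hN'0 hXpos hYpos hD (by positivity)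
        (by positivity) (by positivity) (by positivity) h1 hconst hcX
      refine h5.trans ?_
      apply mul_le_mul_of_nonneg_left _ hN'0
      apply mul_le_mul_of_nonneg_left _ (by positivity)
      have : Y * (Y * (X * X * X) * (x : ℝ) ^ (3 * δ * γ)) = (x : ℝ) ^ (4 * γ + 3 * δ * γ) := by
        calc Y * (Y * (X * X * X) * (x : ℝ) ^ (3 * δ * γ)) =
            (Y * Y) * (X * X * X) * (x : ℝ) ^ (3 * δ * γ) := by ring
          _ = X * (X * X * X) * (x : ℝ) ^ (3 * δ * γ) := by rw [hYY]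
          _ = _ := by
            rw [hX, ← Real.rpow_add hx0, ← Real.rpow_add hx0, ← Real.rpow_add hx0,
              ← Real.rpow_add hx0]
            congr 1; ring
      rw [this]
      apply Real.rpow_le_rpow_of_exponent_le hxr
      have q1 : (5 + 4 * δ) * γ = 5 * γ + 4 * (δ * γ) := by ring
      have q2 : 3 * δ * γ = 3 * (δ * γ) := by ring
      have q3 : 0 ≤ δ * γ := mul_nonneg hδ hγ0.le
      rw [q2]
      linarith only [q1, q3, hγ3, hγ0]
    -- conclude
    exact concl_aux x N (cnt P' x) δ η a τ hx0 hNr ha hN hδ e4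

end Pool.Agent.Helper1.LowComp
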